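import Pool.Agent.X260.KG.Wd
import Pool.Agent.Helper122.Spl

set_option autoImplicit false
set_option linter.unusedSectionVars false

namespace Pool.Agent.X260.KG

open Monoid Monoid.CoprodI Pool.Agent.Helper122.Spl

variable {A : Type} [Group A]

/-- a cut in the abstract sense gives a good family -/
theorem good_abs (htf : ∀ a : A, a ≠ 1 → ∀ n : ℕ, 0 < n → a ^ n ≠ 1) {X : Set A}
    (hfin : ∀ g : A, {s : A | ¬ (s ∈ X ↔ s * g ∈ X)}.Finite)
    (hn : ∀ a, Nested (tr a X) X) (h1 : X.Nonempty) (h2 : Xᶜ.Nonempty) : Good X := by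
  have hstab : ∀ a, (∀ x, (a * x ∈ X ↔ x ∈ X)) → a = 1 := by
    intro a ha
    by_contra hne
    obtain ⟨x, hx⟩ := h1
    obtain ⟨y, hy⟩ := h2
    have hp : ∀ (n : ℕ) x, (a ^ n * x ∈ X ↔ x ∈ X) := by
      intro n
      induction n with
      | zero => intro x; simp
      | succ n ih => intro x; rw [pow_succ', mul_assoc, ha, ih]
    have hmem : ∀ n : ℕ, a ^ n * x ∈ {s : A | ¬ (s ∈ X ↔ s * (x⁻¹ * y) ∈ X)} := by
      intro n
      have e : a ^ n * x * (x⁻¹ * y) = a ^ n * y := by group
      show ¬ (a ^ n * x ∈ X ↔ a ^ n * x * (x⁻¹ * y) ∈ X)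
      rw [e, hp, hp]
      intro h
      exact hy (h.1 hx)
    refine Set.infinite_of_injective_forall_mem (f := fun n : ℕ => a ^ n * x) ?_ hmem
      (hfin (x⁻¹ * y))
    intro n m hnm
    exact pow_inj htf hne (mul_right_cancel hnm)
  have hst : ∀ a, tr a X = X → a = 1 := by
    intro a h
    apply hstab
    intro x
    have : (a * x ∈ tr a X ↔ x ∈ X) := by simp [mem_tr]
    rwa [h] at this
  refine ⟨?_, ?_, hst, ?_, ?_⟩
  · rintro E ⟨a, rfl | rfl⟩
    · obtain ⟨x, hx⟩ := h1
      exact ⟨a * x, by simpa [mem_tr] using hx⟩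
    · obtain ⟨x, hx⟩ := h2
      exact ⟨a * x, by simpa [mem_tr] using hx⟩
  · have hn2 : ∀ a b, Nested (tr a X) (tr b X) := by
      intro a b
      have := nested_tr (a := b) (hn (b⁻¹ * a))
      rwa [tr_tr, mul_inv_cancel_left] at this
    rintro E ⟨a, rfl | rfl⟩ F ⟨b, rfl | rfl⟩
    · exact hn2 a b
    · exact nested_compl_right (hn2 a b)
    · exact nested_compl_left (hn2 a b)
    · exact nested_compl_left (nested_compl_right (hn2 a b))
  · intro a h
    have h3 : tr (a * a) X = X := by
      rw [← tr_tr, h, tr_compl, h, compl_compl]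
    have h4 : a ^ 2 = 1 := by rw [pow_two]; exact hst _ h3
    have h5 : a = 1 := by
      by_contra hne
      exact htf a hne 2 (by norm_num) h4
    rw [h5, tr_one] at h
    obtain ⟨x, hx⟩ := h1
    have := hx
    rw [h] at this
    exact this hx
  · intro x y
    have hf : {a : A | ¬ (a⁻¹ * x ∈ X ↔ a⁻¹ * y ∈ X)}.Finite := by
      have hinj : Function.Injective (fun a : A => a⁻¹ * x) := by
        intro a b h
        simpa using h
      refine ((hfin (x⁻¹ * y)).preimage hinj.injOn).subset ?_
      intro a ha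
      simpa [mul_assoc] using ha
    refine ((hf.image (fun a => tr a X)).union (hf.image (fun a => (tr a X)ᶜ))).subset ?_
    rintro E ⟨⟨a, rfl | rfl⟩, hx, hy⟩
    · left
      refine ⟨a, ?_, rfl⟩
      intro h
      exact hy (h.1 hx)
    · right
      refine ⟨a, ?_, rfl⟩
      intro h
      apply hy
      intro hy'
      exact hx (h.2 hy')

/-- A torsion-free group with an abstract nested cut splits as a free product. -/
theorem split_abs (htf : ∀ a : A, a ≠ 1 → ∀ n : ℕ, 0 < n → a ^ n ≠ 1) {X : Set A}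
    (hfin : ∀ g : A, {s : A | ¬ (s ∈ X ↔ s * g ∈ X)}.Finite)
    (hn : ∀ a, Nested (tr a X) X) (h1 : X.Infinite) (h2 : Xᶜ.Infinite) :
    ∃ A1 A2 : Subgroup A, A2 ≠ ⊥ ∧ (A1 = ⊥ → ∃ t, A2 = Subgroup.zpowers t) ∧
      Function.Bijective (Monoid.Coprod.lift A1.subtype A2.subtype) := by
  have hG := good_abs htf hfin hn h1.nonempty h2.nonempty
  obtain ⟨C, hC, h1C, hmin⟩ := hG.exists_min 1
  have hEE := EE_EE hC
  have hinf : ∀ (a : A) (Y : Set A), Y.Infinite → (tr a Y).Infinite := by
    intro a Y hY h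
    apply hY
    refine (h.image (fun x => a⁻¹ * x)).subset ?_
    intro y hy
    exact ⟨a * y, by simpa [mem_tr] using hy, by simp⟩
  have hCi : C.Infinite ∧ Cᶜ.Infinite := by
    obtain ⟨a, rfl | rfl⟩ := hC
    · exact ⟨hinf a X h1, hinf a Xᶜ h2⟩
    · rw [compl_compl]
      exact ⟨hinf a Xᶜ h2, hinf a X h1⟩
  have hGC : Good C := by
    constructor
    · rw [hEE]; exact hG.ne
    · rw [hEE]; exact hG.nest
    · intro a h
      obtain ⟨b, rfl | rfl⟩ := hC
      · have h2 := congrArg (tr b⁻¹) h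
        rw [tr_tr, tr_tr, tr_tr, inv_mul_cancel, tr_one] at h2
        have h3 := hG.stab _ h2
        exact conj_one h3
      · rw [tr_compl] at h
        have h2 := congrArg (tr b⁻¹) (compl_injective h)
        rw [tr_tr, tr_tr, tr_tr, inv_mul_cancel, tr_one] at h2
        have h3 := hG.stab _ h2
        exact conj_one h3
    · intro a h
      obtain ⟨b, rfl | rfl⟩ := hC
      · have h2 := congrArg (tr b⁻¹) h
        rw [tr_tr, tr_tr, tr_compl, tr_tr, inv_mul_cancel, tr_one] at h2
        exact hG.stab' _ h2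
      · rw [tr_compl] at h
        have h2 := congrArg (tr b⁻¹) (compl_injective h)
        rw [tr_tr, tr_tr, tr_compl, tr_tr, inv_mul_cancel, tr_one] at h2
        exact hG.stab' _ h2
    · rw [hEE]; exact hG.fin
  have hZ : RInv (⊥ : Subgroup A) C := by
    intro x z hz
    rw [Subgroup.mem_bot] at hz
    rw [hz, mul_one]
  obtain ⟨A1, A2, _, h3, h4, h5⟩ := splitting_min hGC htf ⊥ hZ hCi.1 hCi.2 h1C
    (by rw [hEE]; exact hmin)
  exact ⟨A1, A2, h3, h4, h5⟩

/-- A nontrivial group which is not a free product of two nontrivial groups. -/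
def FreelyIndecomposable (G : Type) [Group G] : Prop :=
  Nontrivial G ∧ ∀ (A B : Type) [Group A] [Group B], Nonempty (G ≃* Monoid.Coprod A B) →
    Subsingleton A ∨ Subsingleton B

variable {ι : Type} {M : ι → Type} [∀ i, Group (M i)]

theorem pow_SS {i j : ι} {g : CoprodI M} (hij : i ≠ j) (h : Ed i j g) (n : ℕ) :
    Ed i j (g ^ (n + 1)) := by
  induction n with
  | zero => simpa using h
  | succ n ih => rw [pow_succ]; exact ih.mul h hij.symm

/-- Kurosh's theorem for freely indecomposable subgroups -/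
theorem kurosh {H : Type} [Group H] (hH : FreelyIndecomposable H)
    (htf : ∀ a : H, a ≠ 1 → ∀ n : ℕ, 0 < n → a ^ n ≠ 1)
    (f : H →* CoprodI M) (hf : Function.Injective f) :
    (∃ y : H, ∀ x : H, x ∈ Subgroup.zpowers y) ∨
    (∃ i, ∃ t : CoprodI M, ∀ h, t⁻¹ * f h * t ∈ (of : M i →* CoprodI M).range) := by
  have hnt : ∃ h : H, h ≠ 1 := by
    haveI := hH.1
    exact exists_ne 1
  rcases ell_or_hyp f hf hnt with h | ⟨t, h, i, j, hij, hh⟩
  · exact Or.inr h
  left
  set f' : H →* CoprodI M := (MulAut.conj t⁻¹).toMonoidHom.comp f with hf'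
  have hf'a : ∀ x, f' x = t⁻¹ * f x * t := by
    intro x; simp [hf', MulAut.conj_apply]
  have hf'inj : Function.Injective f' := (MulAut.conj t⁻¹).injective.comp hf
  have hE : Ed i j (f' h) := by rw [hf'a]; exact hh
  have hne : h ≠ 1 := by
    rintro rfl
    rw [map_one] at hE
    exact hE.ne rfl
  set X : Set H := {x | f' x ∈ SS i} with hX
  have hfin : ∀ g : H, {s : H | ¬ (s ∈ X ↔ s * g ∈ X)}.Finite := by
    intro g
    refine ((fin_all i (f' g)).preimage hf'inj.injOn).subset ?_
    intro s hs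
    simpa [hX, map_mul] using hs
  have hnest : ∀ a, Nested (tr a X) X := by
    intro a
    unfold Nested
    rcases nested_SS i (f' a) with h1 | h1 | h1 | h1
    · left; intro x hx
      apply h1
      have : f' (a⁻¹ * x) ∈ SS i := hx
      rwa [map_mul, map_inv] at this
    · right; left; intro x hx
      show f' (a⁻¹ * x) ∈ SS i
      rw [map_mul, map_inv]
      exact h1 _ hx
    · right; right; left; intro x hx
      have : f' (a⁻¹ * x) ∈ SS i := hx
      rw [map_mul, map_inv] at this
      exact h1 _ this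
    · right; right; right; intro x hx
      have : f' (a⁻¹ * x) ∉ SS i := hx
      rw [map_mul, map_inv] at this
      exact h1 _ this
  have hinj : Function.Injective (fun n : ℕ => h ^ (n + 1)) := by
    intro n m hnm
    have := pow_inj htf hne hnm
    omega
  have hinf1 : X.Infinite := by
    refine Set.infinite_of_injective_forall_mem hinj ?_
    intro n
    show f' (h ^ (n + 1)) ∈ SS i
    rw [map_pow]
    exact (pow_SS hij hE n).SS
  have hinf2 : Xᶜ.Infinite := by
    refine Set.infinite_of_injective_forall_mem (f := fun n : ℕ => (h ^ (n + 1))⁻¹) ?_ ?_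
    · intro n m hnm
      exact hinj (inv_injective hnm)
    intro n
    show f' (h ^ (n + 1))⁻¹ ∉ SS i
    rw [map_inv, map_pow]
    exact (pow_SS hij hE n).inv.not_SS hij.symm
  obtain ⟨A1, A2, h3, h4, h5⟩ := split_abs htf hfin hnest hinf1 hinf2
  have e : H ≃* Monoid.Coprod A1 A2 := (MulEquiv.ofBijective _ h5).symm
  rcases hH.2 A1 A2 ⟨e⟩ with h6 | h6
  · have h7 : A1 = ⊥ := by
      rw [Subgroup.eq_bot_iff_forall]
      intro x hx
      have := Subsingleton.elim (⟨x, hx⟩ : A1) 1
      exact congrArg Subtype.val this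
    obtain ⟨y, hy⟩ := h4 h7
    refine ⟨y, fun x => ?_⟩
    obtain ⟨z, rfl⟩ := h5.2 x
    induction z using Monoid.Coprod.induction_on with
    | inl a =>
      rw [Monoid.Coprod.lift_apply_inl, Subsingleton.elim a 1, map_one]
      exact one_mem _
    | inr b =>
      rw [Monoid.Coprod.lift_apply_inr, ← hy]
      exact b.2
    | mul a b ha hb => rw [map_mul]; exact mul_mem ha hb
  · exfalso
    apply h3
    rw [Subgroup.eq_bot_iff_forall]
    intro x hx
    have := Subsingleton.elim (⟨x, hx⟩ : A2) 1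
    exact congrArg Subtype.val this

end Pool.Agent.X260.KG
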