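import Pool.Agent.X260.KG.Gam
import Pool.Agent.X260.KG.Spt

set_option autoImplicit false
set_option linter.unusedSectionVars false

namespace Pool.Agent.X260.KG

open Monoid Monoid.CoprodI

/-- Finite Kurosh rank: a free product of finitely many freely indecomposable groups. -/
def FiniteKuroshRank (G : Type) [Group G] : Prop :=
  ∃ (n : ℕ) (H : Fin n → Type) (_ : ∀ i, Group (H i)), (∀ i, FreelyIndecomposable (H i)) ∧
    Nonempty (G ≃* Monoid.CoprodI H)

/-- the factors of the decomposition `Γ = Γ_k * ⟨b_1⟩ * … * ⟨b_k⟩` -/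
def SK (k : ℕ) : Option (Fin k) → Subgroup Kur
  | none => Subgroup.closure {g | ∃ n, k ≤ n ∧ (g = A n ∨ g = B n)}
  | some i => Subgroup.zpowers (B i)

theorem exists_R (k : ℕ) : ∃ R : Kur →* CoprodI (fun i => SK k i), ∀ g,
    CoprodI.lift (fun i => (SK k i).subtype) (R g) = g := by
  have hA : ∀ n, k ≤ n → A n ∈ SK k none := fun n hn =>
    Subgroup.subset_closure ⟨n, hn, Or.inl rfl⟩
  have hB : ∀ n, k ≤ n → B n ∈ SK k none := fun n hn =>
    Subgroup.subset_closure ⟨n, hn, Or.inr rfl⟩
  have hC : ∀ i : Fin k, B i ∈ SK k (some i) := fun i => Subgroup.mem_zpowers _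
  obtain ⟨R, h1, h2⟩ := exists_hom (Q := CoprodI (fun i => SK k i)) k
    (fun n => if h : k ≤ n then CoprodI.of (M := fun i => SK k i) (i := none) ⟨A n, hA n h⟩ else 1)
    (fun n => if h : k ≤ n then CoprodI.of (M := fun i => SK k i) (i := none) ⟨B n, hB n h⟩ else
      CoprodI.of (M := fun i => SK k i) (i := some ⟨n, by omega⟩) ⟨B n, hC ⟨n, by omega⟩⟩) (by
      intro n hn
      rw [dif_pos (by omega : k ≤ n + 1), dif_pos hn, dif_pos hn, ← map_inv, ← map_inv, ← map_mul,
        ← map_mul, ← map_mul]
      congr 1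
      apply Subtype.ext
      exact relA n)
  refine ⟨R, ?_⟩
  have : (CoprodI.lift (fun i => (SK k i).subtype)).comp R = MonoidHom.id Kur := by
    refine Kur.ext k ?_ ?_
    · intro n hn
      show CoprodI.lift (fun i => (SK k i).subtype) (R (A n)) = A n
      rw [h1 n hn, dif_pos hn, CoprodI.lift_of]
      rfl
    · intro n
      show CoprodI.lift (fun i => (SK k i).subtype) (R (B n)) = B n
      rw [h2 n]
      by_cases hn : k ≤ n
      · rw [dif_pos hn, CoprodI.lift_of]; rfl
      · rw [dif_neg hn, CoprodI.lift_of]; rfl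
  intro g
  exact DFunLike.congr_fun this g

theorem exists_q (k : ℕ) : ∃ q : Kur →* Multiplicative (Fin k → ZMod 2),
    (∀ n, q (A n) = 1) ∧ (∀ n, k ≤ n → q (B n) = 1) ∧
    ∀ i : Fin k, q (B i) = Multiplicative.ofAdd (Pi.single i 1) := by
  obtain ⟨q, h1, h2⟩ := exists_hom (Q := Multiplicative (Fin k → ZMod 2)) 0
    (fun _ => 1) (fun n => if h : n < k then Multiplicative.ofAdd (Pi.single ⟨n, h⟩ 1) else 1)
    (by intro n _; simp)
  refine ⟨q, fun n => h1 n (Nat.zero_le n), ?_, ?_⟩
  · intro n hn
    rw [h2 n, dif_neg (by omega)]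
  · intro i
    rw [h2 i, dif_pos i.2]

/-- the Kurosh group does not have finite Kurosh rank -/
theorem kur_rank : ¬ FiniteKuroshRank Kur := by
  classical
  rintro ⟨n, H, _, hH, ⟨e⟩⟩
  set k := n + 1 with hk
  obtain ⟨R, hR⟩ := exists_R k
  obtain ⟨q, hqA, hqB, hqi⟩ := exists_q k
  have hRinj : Function.Injective R := by
    intro x y h
    rw [← hR x, ← hR y, h]
  -- the factors
  set f : ∀ j, H j →* Kur := fun j => e.symm.toMonoidHom.comp (CoprodI.of (M := H) (i := j)) with hf
  have hfinj : ∀ j, Function.Injective (f j) := fun j =>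
    e.symm.injective.comp (CoprodI.of_injective j)
  have hcyc : ∀ j, ∃ y : Multiplicative (Fin k → ZMod 2), ∀ h : H j,
      q (f j h) ∈ Subgroup.zpowers y := by
    intro j
    have htf : ∀ a : H j, a ≠ 1 → ∀ m : ℕ, 0 < m → a ^ m ≠ 1 := by
      intro a ha m hm h
      refine kur_tf (f j a) ?_ m hm ?_
      · intro h'
        exact ha (hfinj j (by rw [h', map_one]))
      · rw [← map_pow, h, map_one]
    rcases kurosh (hH j) htf (R.comp (f j)) (hRinj.comp (hfinj j)) with ⟨y, hy⟩ | ⟨i, t, ht⟩
    · refine ⟨q (f j y), fun h => ?_⟩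
      obtain ⟨m, rfl⟩ := Subgroup.mem_zpowers_iff.1 (hy h)
      rw [map_zpow, map_zpow]
      exact Subgroup.zpow_mem_zpowers _ _
    · set L := CoprodI.lift (fun i => (SK k i).subtype) with hL
      have h1 : ∀ h, (L t)⁻¹ * f j h * L t ∈ SK k i := by
        intro h
        obtain ⟨s, hs⟩ := ht h
        have h2 := congrArg L hs
        rw [map_mul, map_mul, map_inv] at h2
        have h3 : L ((R.comp (f j)) h) = f j h := hR _
        rw [h3] at h2
        rw [← h2, hL, CoprodI.lift_of]
        exact s.2
      have h2 : ∀ h, q (f j h) = q ((L t)⁻¹ * f j h * L t) := by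
        intro h
        rw [map_mul, map_mul, map_inv, mul_comm, mul_inv_cancel_left]
      cases i with
      | none =>
        refine ⟨1, fun h => ?_⟩
        rw [h2]
        have h3 := h1 h
        have h4 : ∀ g ∈ SK k none, q g = 1 := by
          intro g hg
          have hle : SK k none ≤ q.ker := by
            show Subgroup.closure _ ≤ _
            rw [Subgroup.closure_le]
            rintro g ⟨m, hm, rfl | rfl⟩
            · exact hqA m
            · exact hqB m hm
          exact hle hg
        rw [h4 _ h3]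
        exact one_mem _
      | some i =>
        refine ⟨q (B i), fun h => ?_⟩
        rw [h2]
        obtain ⟨m, hm⟩ := Subgroup.mem_zpowers_iff.1 (h1 h)
        rw [← hm, map_zpow]
        exact Subgroup.zpow_mem_zpowers _ _
  choose y hy using hcyc
  -- the vectors span
  have hspan : ∀ x : CoprodI H, (Multiplicative.toAdd (q (e.symm x)) : Fin k → ZMod 2) ∈
      Submodule.span (ZMod 2) (Set.range fun j => (Multiplicative.toAdd (y j) : Fin k → ZMod 2)) := by
    intro x
    induction x using CoprodI.induction_on with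
    | one => rw [map_one, map_one]; exact Submodule.zero_mem _
    | of j h =>
      obtain ⟨m, hm⟩ := Subgroup.mem_zpowers_iff.1 (hy j h)
      have h5 : q (e.symm (CoprodI.of h)) = y j ^ m := hm.symm
      rw [h5, toAdd_zpow]
      exact Submodule.smul_of_tower_mem _ m (Submodule.subset_span ⟨j, rfl⟩)
    | mul a b ha hb =>
      rw [map_mul, map_mul, toAdd_mul]
      exact Submodule.add_mem _ ha hb
  have htop : Submodule.span (ZMod 2)
      (Set.range fun j => (Multiplicative.toAdd (y j) : Fin k → ZMod 2)) = ⊤ := by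
    rw [eq_top_iff, ← (Pi.basisFun (ZMod 2) (Fin k)).span_eq, Submodule.span_le]
    rintro _ ⟨i, rfl⟩
    have := hspan (e (B i))
    rw [e.symm_apply_apply, hqi i] at this
    rw [Pi.basisFun_apply]
    exact this
  have hle := finrank_range_le_card (R := ZMod 2)
    (fun j => (Multiplicative.toAdd (y j) : Fin k → ZMod 2))
  rw [Set.finrank, htop, finrank_top, Module.finrank_fin_fun, Fintype.card_fin] at hle
  omega

end Pool.Agent.X260.KG
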