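import Mathlib

set_option autoImplicit false
set_option linter.unusedSectionVars false

namespace Pool.Agent.X260.KG

/-- free group of rank two -/
abbrev FF : Type := FreeGroup Bool

open Classical in
/-- jump along an edge -/
noncomputable def dl (s t : Bool) (z : FF) : ZMod 2 := if t = s ∧ z = 1 then 1 else 0

/-- one step -/
noncomputable def Ps (s t : Bool) : Equiv.Perm (FF × ZMod 2) :=
  ⟨fun p => (p.1 * (FreeGroup.of t)⁻¹, p.2 - dl s t (p.1 * (FreeGroup.of t)⁻¹)),
   fun p => (p.1 * FreeGroup.of t, p.2 + dl s t p.1),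
   fun p => by simp, fun p => by simp⟩

/-- the action -/
noncomputable def rh (s : Bool) : FF →* Equiv.Perm (FF × ZMod 2) := FreeGroup.lift (Ps s)

theorem rh_fst (s : Bool) (g : FF) : ∀ p, (rh s g p).1 = p.1 * g⁻¹ := by
  induction g using FreeGroup.induction_on with
  | C1 => intro p; simp
  | of t => intro p; simp [rh, Ps]
  | inv_of t h =>
    intro p
    rw [map_inv]
    show ((rh s (FreeGroup.of t))⁻¹ p).1 = _
    unfold rh
    rw [FreeGroup.lift_apply_of]
    show p.1 * FreeGroup.of t = _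
    rw [inv_inv]
  | mul x y hx hy =>
    intro p
    rw [map_mul]
    show (rh s x (rh s y p)).1 = _
    rw [hx, hy, mul_inv_rev, mul_assoc]

/-- the test function -/
noncomputable def tst (s : Bool) (z : FF) : ZMod 2 := (rh s z⁻¹ (1, 0)).2

theorem tst_mul (s t : Bool) (z : FF) : tst s (z * FreeGroup.of t) = tst s z + dl s t z := by
  have h : rh s z⁻¹ (1, 0) = (z, tst s z) := by
    refine Prod.ext ?_ rfl
    rw [rh_fst]; simp
  unfold tst
  rw [mul_inv_rev, map_mul]
  show ((rh s (FreeGroup.of t)⁻¹) (rh s z⁻¹ (1, 0))).2 = _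
  rw [h, map_inv]
  unfold rh
  rw [FreeGroup.lift_apply_of]
  rfl

theorem summ {F : Type} [Group F] (u φ : F → ZMod 2) (hφ : φ.support.Finite) (y : F) :
    ∑ᶠ z, u z * (φ z - φ (z * y)) = ∑ᶠ z, (u z - u (z * y⁻¹)) * φ z := by
  have h1 : ∀ v : F → ZMod 2, (Function.support fun z => v z * φ z).Finite := fun v =>
    hφ.subset (Function.support_mul_subset_right _ _)
  have h2 : (Function.support fun z => u z * φ (z * y)).Finite := by
    have h3 := (h1 (fun z => u (z * y⁻¹))).preimage (f := fun z => z * y)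
      (mul_left_injective y).injOn
    refine h3.subset ?_
    intro z hz
    simpa [Function.mem_support] using hz
  have e1 : ∑ᶠ z, u z * (φ z - φ (z * y)) = ∑ᶠ z, u z * φ z - ∑ᶠ z, u z * φ (z * y) := by
    rw [← finsum_sub_distrib (h1 u) h2]
    exact finsum_congr fun z => by ring
  have e2 : ∑ᶠ z, u z * φ (z * y) = ∑ᶠ z, u (z * y⁻¹) * φ z := by
    rw [← finsum_comp_equiv (Equiv.mulRight y) (f := fun z => u (z * y⁻¹) * φ z)]
    exact finsum_congr fun z => by simp
  rw [e1, e2, ← finsum_sub_distrib (h1 u) (h1 _)]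
  exact finsum_congr fun z => by ring

theorem key {F : Type} [Group F] (x y : F) (u : F → ZMod 2)
    (hy : ∀ z, u (z * y⁻¹) = u z) (hx : ∀ z, u (z * x⁻¹) = u z + open Classical in if z = 1 then 1 else 0)
    (χ : F → ZMod 2) (hcom : ∀ z, χ (z * x * y) = χ (z * y * x))
    (hfx : {z | χ (z * x) ≠ χ z}.Finite) (hfy : {z | χ (z * y) ≠ χ z}.Finite) : χ y = χ 1 := by
  classical
  have h1 := summ u (fun z => χ (z * x) - χ z) (hfx.subset (by
    intro z hz; exact sub_ne_zero.1 hz)) y
  have h2 := summ u (fun z => χ (z * y) - χ z) (hfy.subset (by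
    intro z hz; exact sub_ne_zero.1 hz)) x
  have h3 : ∑ᶠ z, u z * ((χ (z * x) - χ z) - (χ (z * y * x) - χ (z * y))) =
      ∑ᶠ z, u z * ((χ (z * y) - χ z) - (χ (z * x * y) - χ (z * x))) :=
    finsum_congr fun z => by rw [hcom z]; ring
  have h4 : ∑ᶠ z, (u z - u (z * y⁻¹)) * (χ (z * x) - χ z) = 0 := by
    rw [← finsum_zero (α := F)]
    exact finsum_congr fun z => by rw [hy z]; ring
  have h5 : ∑ᶠ z, (u z - u (z * x⁻¹)) * (χ (z * y) - χ z) = - (χ y - χ 1) := by
    rw [finsum_eq_single _ (1 : F)]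
    · rw [hx 1, if_pos rfl, one_mul]; ring
    · intro z hz
      rw [hx z, if_neg hz]; ring
  have h6 : (0 : ZMod 2) = - (χ y - χ 1) := by
    rw [← h5, ← h4, ← h1, ← h2]
    exact h3
  have h7 : χ y - χ 1 = 0 := by
    have := congrArg Neg.neg h6
    rw [neg_zero, neg_neg] at this
    exact this.symm
  exact sub_eq_zero.1 h7

/-- An almost invariant subset of the free group invariant under the commutator is invariant. -/
theorem free_inv (E : Set FF) (hai : ∀ g : FF, {w | ¬ (w ∈ E ↔ w * g ∈ E)}.Finite)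
    (hc : ∀ w, w * (FreeGroup.of false * FreeGroup.of true * (FreeGroup.of false)⁻¹ *
      (FreeGroup.of true)⁻¹) ∈ E ↔ w ∈ E) (s : Bool) (w : FF) :
    w * (FreeGroup.of s)⁻¹ ∈ E ↔ w ∈ E := by
  classical
  set χ : FF → ZMod 2 := fun z => if w * z ∈ E then 1 else 0 with hχ
  have hχe : ∀ z z', (χ z = χ z' ↔ (w * z ∈ E ↔ w * z' ∈ E)) := by
    intro z z'
    by_cases h1 : w * z ∈ E <;> by_cases h2 : w * z' ∈ E <;> simp [hχ, h1, h2]
  have hcom : ∀ z, χ (z * (FreeGroup.of false)⁻¹ * (FreeGroup.of true)⁻¹) =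
      χ (z * (FreeGroup.of true)⁻¹ * (FreeGroup.of false)⁻¹) := by
    intro z
    rw [hχe]
    have := hc (w * (z * (FreeGroup.of true)⁻¹ * (FreeGroup.of false)⁻¹))
    rw [← this]
    have e : w * (z * (FreeGroup.of true)⁻¹ * (FreeGroup.of false)⁻¹) *
        (FreeGroup.of false * FreeGroup.of true * (FreeGroup.of false)⁻¹ * (FreeGroup.of true)⁻¹) =
        w * (z * (FreeGroup.of false)⁻¹ * (FreeGroup.of true)⁻¹) := by group
    rw [e]
  have hfin : ∀ g : FF, {z | χ (z * g) ≠ χ z}.Finite := by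
    intro g
    refine ((hai g).preimage (f := fun z => w * z) (mul_right_injective w).injOn).subset ?_
    intro z hz
    have hz' : χ (z * g) ≠ χ z := hz
    rw [Ne, hχe] at hz'
    show ¬ (w * z ∈ E ↔ w * z * g ∈ E)
    rw [mul_assoc]
    intro h
    exact hz' h.symm
  have main : χ (FreeGroup.of s)⁻¹ = χ 1 := by
    refine key (FreeGroup.of (!s))⁻¹ (FreeGroup.of s)⁻¹ (tst (!s)) ?_ ?_ χ ?_ (hfin _) (hfin _)
    · intro z
      rw [inv_inv, tst_mul]
      have : dl (!s) s z = 0 := by
        unfold dl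
        rw [if_neg]
        rintro ⟨h, _⟩
        cases s <;> simp at h
      rw [this, add_zero]
    · intro z
      rw [inv_inv, tst_mul]
      unfold dl
      simp
    · intro z
      cases s
      · exact (hcom z).symm
      · exact hcom z
  rw [hχe, mul_one] at main
  exact main

end Pool.Agent.X260.KG
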