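import Pool.Agent.X260.KG.Gam
import Pool.Agent.X260.KG.Fox

set_option autoImplicit false
set_option linter.unusedSectionVars false

namespace Pool.Agent.X260.KG

/-- `A` is almost invariant: `A △ Ag` is finite for every `g`. -/
def AlmostInvariant {G : Type} [Group G] (A : Set G) : Prop :=
  ∀ g : G, (symmDiff A ((fun x => x * g) '' A)).Finite

theorem ai_iff {G : Type} [Group G] (A : Set G) :
    AlmostInvariant A ↔ ∀ g : G, {x | ¬ (x ∈ A ↔ x * g ∈ A)}.Finite := by
  have h : ∀ g : G, symmDiff A ((fun x => x * g) '' A) = {x | ¬ (x ∈ A ↔ x * g⁻¹ ∈ A)} := by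
    intro g
    ext x
    have : x ∈ (fun x => x * g) '' A ↔ x * g⁻¹ ∈ A := by
      constructor
      · rintro ⟨y, hy, rfl⟩; simpa using hy
      · intro hx; exact ⟨x * g⁻¹, hx, by simp⟩
    rw [Set.mem_symmDiff, this]
    show _ ↔ ¬ (x ∈ A ↔ x * g⁻¹ ∈ A)
    tauto
  constructor
  · intro hA g
    have := hA g⁻¹
    rw [h, inv_inv] at this
    exact this
  · intro hA g
    rw [h]
    exact hA g⁻¹

theorem inv_step {G : Type} [Group G] (D : Set G)
    (hD : ∀ g : G, {x | ¬ (x ∈ D ↔ x * g ∈ D)}.Finite) (f : FreeGroup Bool →* G)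
    (hf : Function.Injective f)
    (hc : ∀ x, x * (f (FreeGroup.of false) * f (FreeGroup.of true) * (f (FreeGroup.of false))⁻¹ *
      (f (FreeGroup.of true))⁻¹) ∈ D ↔ x ∈ D) (s : Bool) (x : G) :
    x * f (FreeGroup.of s) ∈ D ↔ x ∈ D := by
  set E : Set (FreeGroup Bool) := {w | (x * f (FreeGroup.of s)) * f w ∈ D} with hE
  have h := free_inv E (by
    intro g
    have hinj : Function.Injective (fun w => (x * f (FreeGroup.of s)) * f w) :=
      (mul_right_injective _).comp hf
    refine ((hD (f g)).preimage hinj.injOn).subset ?_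
    intro w hw
    have hw' : ¬ ((x * f (FreeGroup.of s)) * f w ∈ D ↔ (x * f (FreeGroup.of s)) * f (w * g) ∈ D) := hw
    show ¬ ((x * f (FreeGroup.of s)) * f w ∈ D ↔ (x * f (FreeGroup.of s)) * f w * f g ∈ D)
    rw [map_mul, ← mul_assoc] at hw'
    exact hw') (by
    intro w
    show (x * f (FreeGroup.of s)) * f (w * _) ∈ D ↔ (x * f (FreeGroup.of s)) * f w ∈ D
    rw [map_mul, ← mul_assoc, ← hc ((x * f (FreeGroup.of s)) * f w)]
    simp only [map_mul, map_inv]) s 1
  have h' : (x * f (FreeGroup.of s)) * f (1 * (FreeGroup.of s)⁻¹) ∈ D ↔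
    (x * f (FreeGroup.of s)) * f 1 ∈ D := h
  rw [one_mul, map_inv, mul_inv_cancel_right, map_one, mul_one] at h'
  exact h'.symm

/-- an almost invariant subset of the Kurosh group invariant under `a_0` is trivial -/
theorem kur_inv (D : Set Kur) (hD : ∀ g : Kur, {x | ¬ (x ∈ D ↔ x * g ∈ D)}.Finite)
    (h0 : ∀ x, x * A 0 ∈ D ↔ x ∈ D) (g : Kur) : ∀ x, x * g ∈ D ↔ x ∈ D := by
  have hstep : ∀ n, (∀ x, x * A n ∈ D ↔ x ∈ D) →
      (∀ x, x * A (n + 1) ∈ D ↔ x ∈ D) ∧ (∀ x, x * B n ∈ D ↔ x ∈ D) := by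
    intro n hn
    let f : FreeGroup Bool →* Kur := FreeGroup.lift fun s => match s with
      | false => A (n + 1)
      | true => B n
    have e0 : f (FreeGroup.of false) = A (n + 1) := by simp [f]
    have e1 : f (FreeGroup.of true) = B n := by simp [f]
    have h := inv_step D hD f (pair_inj n f e0 e1) (by
      intro x
      rw [e0, e1, relA]
      exact hn x)
    constructor
    · intro x
      have := h false x
      rwa [e0] at this
    · intro x
      have := h true x
      rwa [e1] at this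
  have ha : ∀ n, ∀ x, x * A n ∈ D ↔ x ∈ D := by
    intro n
    induction n with
    | zero => exact h0
    | succ n ih => exact (hstep n ih).1
  refine Kur.induction (P := fun g => ∀ x, x * g ∈ D ↔ x ∈ D) ?_ ha (fun n => (hstep n (ha n)).2)
    ?_ ?_ g
  · intro x; rw [mul_one]
  · intro g h hg hh x
    rw [← mul_assoc, hh, hg]
  · intro g hg x
    rw [← hg (x * g⁻¹), inv_mul_cancel_right]

theorem kur_ai_countable : Countable {S : Set Kur // AlmostInvariant S} := by
  classical
  have hfin : ∀ S : {S : Set Kur // AlmostInvariant S},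
      {x : Kur | ¬ (x ∈ S.1 ↔ x * A 0 ∈ S.1)}.Finite := fun S => (ai_iff S.1).1 S.2 (A 0)
  let F : {S : Set Kur // AlmostInvariant S} → Finset Kur × Bool := fun S =>
    ((hfin S).toFinset, decide ((1 : Kur) ∈ S.1))
  have hF : Function.Injective F := by
    intro S T hST
    have h1 : ∀ x, (¬ (x ∈ S.1 ↔ x * A 0 ∈ S.1)) ↔ (¬ (x ∈ T.1 ↔ x * A 0 ∈ T.1)) := by
      intro x
      have h2 := congrArg (fun p => x ∈ p.1) hST
      simpa [F] using h2
    have h3 : ((1 : Kur) ∈ S.1) ↔ ((1 : Kur) ∈ T.1) := by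
      have h2 := congrArg Prod.snd hST
      simpa [F] using h2
    set D : Set Kur := {x | ¬ (x ∈ S.1 ↔ x ∈ T.1)} with hDd
    have hD : ∀ g : Kur, {x | ¬ (x ∈ D ↔ x * g ∈ D)}.Finite := by
      intro g
      refine (((ai_iff S.1).1 S.2 g).union ((ai_iff T.1).1 T.2 g)).subset ?_
      intro x hx
      have hx' : ¬ (¬ (x ∈ S.1 ↔ x ∈ T.1) ↔ ¬ (x * g ∈ S.1 ↔ x * g ∈ T.1)) := hx
      show ¬ (x ∈ S.1 ↔ x * g ∈ S.1) ∨ ¬ (x ∈ T.1 ↔ x * g ∈ T.1)
      tauto
    have h0 : ∀ x, x * A 0 ∈ D ↔ x ∈ D := by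
      intro x
      show ¬ (x * A 0 ∈ S.1 ↔ x * A 0 ∈ T.1) ↔ ¬ (x ∈ S.1 ↔ x ∈ T.1)
      have := h1 x
      tauto
    have h1D : (1 : Kur) ∉ D := fun h => h h3
    apply Subtype.ext
    ext x
    by_contra hx
    have hxD : x ∈ D := hx
    apply h1D
    have := (kur_inv D hD h0 x 1).1
    rw [one_mul] at this
    exact this hxD
  exact hF.countable

/-- A point of the space of ends: a homomorphism from the Boolean algebra of almost invariant
subsets to `{0,1}` that vanishes on the finite subsets. -/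
def IsEnd {G : Type} [Group G] (χ : {S : Set G // AlmostInvariant S} → Bool) : Prop :=
  (∀ S T U : {S : Set G // AlmostInvariant S}, U.1 = S.1 ∩ T.1 → χ U = (χ S && χ T)) ∧
  (∀ S T : {S : Set G // AlmostInvariant S}, T.1 = S.1ᶜ → χ T = !χ S) ∧
  (∀ S : {S : Set G // AlmostInvariant S}, S.1.Finite → χ S = false)

/-- The space of ends of `G` (topology of pointwise convergence). -/
abbrev EndSpace (G : Type) [Group G] : Type :=
  {χ : {S : Set G // AlmostInvariant S} → Bool // IsEnd χ}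

theorem metrizable_of_countable (G : Type) [Group G]
    (h : Countable {S : Set G // AlmostInvariant S}) :
    TopologicalSpace.MetrizableSpace (EndSpace G) :=
  Topology.IsEmbedding.subtypeVal.metrizableSpace

end Pool.Agent.X260.KG
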