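import Mathlib

set_option autoImplicit false
set_option linter.unusedSectionVars false

namespace Pool.Agent.X260.KG

/-- generators: `a n` is `a_n`, `b n` is `b_(n+1)` -/
inductive Gen : Type
  | a (n : ℕ)
  | b (n : ℕ)

/-- the relator `a_(n+1) b_(n+1) a_(n+1)⁻¹ b_(n+1)⁻¹ a_n⁻¹` -/
def rel (n : ℕ) : FreeGroup Gen :=
  FreeGroup.of (Gen.a (n + 1)) * FreeGroup.of (Gen.b n) * (FreeGroup.of (Gen.a (n + 1)))⁻¹ *
    (FreeGroup.of (Gen.b n))⁻¹ * (FreeGroup.of (Gen.a n))⁻¹

/-- the Kurosh group -/
abbrev Kur : Type := PresentedGroup (Set.range rel)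

/-- the generator `a_n` -/
def A (n : ℕ) : Kur := PresentedGroup.of (Gen.a n)

/-- the generator `b_(n+1)` -/
def B (n : ℕ) : Kur := PresentedGroup.of (Gen.b n)

instance : Countable Gen := by
  have : Function.Injective (fun g : Gen => match g with
    | Gen.a n => (Sum.inl n : ℕ ⊕ ℕ)
    | Gen.b n => Sum.inr n) := by
    intro x y h
    cases x <;> cases y <;> simp_all
  exact this.countable

theorem relA (n : ℕ) : A (n + 1) * B n * (A (n + 1))⁻¹ * (B n)⁻¹ = A n := by
  have h : (PresentedGroup.mk (Set.range rel)) (rel n) = 1 :=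
    PresentedGroup.one_of_mem ⟨n, rfl⟩
  unfold rel at h
  simp only [map_mul, map_inv] at h
  exact mul_inv_eq_one.1 h

theorem Kur.induction {P : Kur → Prop} (h1 : P 1) (ha : ∀ n, P (A n)) (hb : ∀ n, P (B n))
    (hmul : ∀ x y, P x → P y → P (x * y)) (hinv : ∀ x, P x → P x⁻¹) (g : Kur) : P g := by
  obtain ⟨w, rfl⟩ := PresentedGroup.mk_surjective _ g
  induction w using FreeGroup.induction_on with
  | C1 => rw [map_one]; exact h1
  | of x =>
    cases x with
    | a n => exact ha n
    | b n => exact hb n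
  | inv_of x h => rw [map_inv]; exact hinv _ h
  | mul x y hx hy => rw [map_mul]; exact hmul _ _ hx hy

theorem Kur.ext {Q : Type} [Group Q] (N : ℕ) {f g : Kur →* Q} (ha : ∀ n, N ≤ n → f (A n) = g (A n))
    (hb : ∀ n, f (B n) = g (B n)) : f = g := by
  have hall : ∀ k n, N ≤ n + k → f (A n) = g (A n) := by
    intro k
    induction k with
    | zero => intro n hn; exact ha n (by simpa using hn)
    | succ k ih =>
      intro n hn
      have h := ih (n + 1) (by omega)
      rw [← relA n]
      simp only [map_mul, map_inv, h, hb]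
  refine MonoidHom.ext fun x => ?_
  refine Kur.induction (P := fun x => f x = g x) ?_ ?_ ?_ ?_ ?_ x
  · rw [map_one, map_one]
  · intro n; exact hall N n (by omega)
  · exact hb
  · intro x y hx hy; rw [map_mul, map_mul, hx, hy]
  · intro x hx; rw [map_inv, map_inv, hx]

/-- downward recursion -/
def dn {Q : Type} [Group Q] (N : ℕ) (x : Q) (b : ℕ → Q) : ℕ → Q
  | 0 => x
  | k + 1 => dn N x b k * b (N - (k + 1)) * (dn N x b k)⁻¹ * (b (N - (k + 1)))⁻¹

theorem exists_hom {Q : Type} [Group Q] (N : ℕ) (a' b' : ℕ → Q)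
    (h : ∀ n, N ≤ n → a' (n + 1) * b' n * (a' (n + 1))⁻¹ * (b' n)⁻¹ = a' n) :
    ∃ φ : Kur →* Q, (∀ n, N ≤ n → φ (A n) = a' n) ∧ ∀ n, φ (B n) = b' n := by
  let f : Gen → Q := fun g => match g with
    | Gen.a n => if N ≤ n then a' n else dn N (a' N) b' (N - n)
    | Gen.b n => b' n
  have hf : ∀ r ∈ Set.range rel, FreeGroup.lift f r = 1 := by
    rintro _ ⟨n, rfl⟩
    unfold rel
    simp only [map_mul, map_inv, FreeGroup.lift_apply_of]
    rw [mul_inv_eq_one]
    show (if N ≤ n + 1 then a' (n + 1) else dn N (a' N) b' (N - (n + 1))) * b' n *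
      (if N ≤ n + 1 then a' (n + 1) else dn N (a' N) b' (N - (n + 1)))⁻¹ * (b' n)⁻¹ =
      if N ≤ n then a' n else dn N (a' N) b' (N - n)
    by_cases h1 : N ≤ n
    · rw [if_pos (by omega), if_pos h1]
      exact h n h1
    · rw [if_neg h1]
      have h2 : (if N ≤ n + 1 then a' (n + 1) else dn N (a' N) b' (N - (n + 1))) =
          dn N (a' N) b' (N - (n + 1)) := by
        by_cases h3 : N ≤ n + 1
        · have h4 : N = n + 1 := by omega
          rw [if_pos h3, ← h4, Nat.sub_self]
          rfl
        · rw [if_neg h3]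
      rw [h2]
      have h5 : N - n = (N - (n + 1)) + 1 := by omega
      have h6 : N - ((N - (n + 1)) + 1) = n := by omega
      conv_rhs => rw [h5]
      show _ = dn N (a' N) b' (N - (n + 1)) * b' (N - ((N - (n + 1)) + 1)) *
        (dn N (a' N) b' (N - (n + 1)))⁻¹ * (b' (N - ((N - (n + 1)) + 1)))⁻¹
      rw [h6]
  refine ⟨PresentedGroup.toGroup hf, ?_, ?_⟩
  · intro n hn
    have : PresentedGroup.toGroup hf (A n) = f (Gen.a n) := PresentedGroup.toGroup.of hf
    rw [this]
    show (if N ≤ n then a' n else _) = _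
    rw [if_pos hn]
  · intro n
    exact PresentedGroup.toGroup.of hf

section perm

variable {F : Type} [Group F]

/-- diagonal action -/
def dg : F →* Equiv.Perm (F × (ℕ → ℤ)) where
  toFun g := ⟨fun p => (g * p.1, p.2), fun p => (g⁻¹ * p.1, p.2),
    fun p => by simp, fun p => by simp⟩
  map_one' := by ext p <;> simp
  map_mul' g h := by ext p <;> simp [mul_assoc]

theorem dg_inj : Function.Injective (dg : F →* Equiv.Perm (F × (ℕ → ℤ))) := by
  intro g h hgh
  have := congrArg (fun e : Equiv.Perm (F × (ℕ → ℤ)) => (e (1, 0)).1) hgh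
  simpa [dg] using this

/-- shift of coordinate `n` -/
def sh (n : ℕ) : Equiv.Perm (F × (ℕ → ℤ)) :=
  ⟨fun p => (p.1, Function.update p.2 n (p.2 n + 1)),
   fun p => (p.1, Function.update p.2 n (p.2 n - 1)),
   fun p => by simp, fun p => by simp⟩

/-- multiplication by a variable power -/
def mlt (α : F) (p : (ℕ → ℤ) → ℤ) : Equiv.Perm (F × (ℕ → ℤ)) :=
  ⟨fun x => (α ^ (p x.2) * x.1, x.2), fun x => ((α ^ (p x.2))⁻¹ * x.1, x.2),
   fun x => by simp, fun x => by simp⟩

theorem mlt_comm (α : F) (p q : (ℕ → ℤ) → ℤ) (n : ℕ)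
    (h : ∀ v, p v - p (Function.update v n (v n - 1)) = q v) :
    mlt α p * sh n * (mlt α p)⁻¹ * (sh n)⁻¹ = mlt α q := by
  ext1 x
  obtain ⟨x, v⟩ := x
  show ((α ^ (p (Function.update (Function.update v n (v n - 1)) n
    ((Function.update v n (v n - 1)) n + 1)))) *
    ((α ^ (p (Function.update v n (v n - 1))))⁻¹ * x),
    Function.update (Function.update v n (v n - 1)) n
    ((Function.update v n (v n - 1)) n + 1)) = (α ^ (q v) * x, v)
  have e : Function.update (Function.update v n (v n - 1)) n
    ((Function.update v n (v n - 1)) n + 1) = v := by simp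
  rw [e, ← h v, zpow_sub, mul_assoc]

theorem prod_id (N n : ℕ) (hn : N ≤ n) (v : ℕ → ℤ) :
    ((∏ i ∈ Finset.Ico N (n + 1), v i) -
      ∏ i ∈ Finset.Ico N (n + 1), (Function.update v n (v n - 1)) i) =
      ∏ i ∈ Finset.Ico N n, v i := by
  rw [Finset.prod_Ico_succ_top hn, Finset.prod_Ico_succ_top hn]
  have : ∏ i ∈ Finset.Ico N n, (Function.update v n (v n - 1)) i = ∏ i ∈ Finset.Ico N n, v i := by
    refine Finset.prod_congr rfl ?_
    intro i hi
    rw [Finset.mem_Ico] at hi
    rw [Function.update_of_ne (by omega)]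
  rw [this, Function.update_self]
  ring

end perm

/-- the free group on `a_N, b_1, …, b_N` -/
abbrev FN (N : ℕ) : Type := FreeGroup (Option (Fin N))

/-- its map to the Kurosh group -/
def io (N : ℕ) : FN N →* Kur :=
  FreeGroup.lift fun x => match x with
    | none => A N
    | some i => B i

theorem exists_phi (N : ℕ) : ∃ φ : Kur →* Equiv.Perm (FN N × (ℕ → ℤ)),
    ∀ w, φ (io N w) = dg w := by
  obtain ⟨φ, h1, h2⟩ := exists_hom (Q := Equiv.Perm (FN N × (ℕ → ℤ))) N
    (fun n => mlt (FreeGroup.of none) (fun v => ∏ i ∈ Finset.Ico N n, v i))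
    (fun n => if h : n < N then dg (FreeGroup.of (some ⟨n, h⟩)) else sh n) (by
      intro n hn
      rw [dif_neg (by omega)]
      exact mlt_comm _ _ _ _ (prod_id N n hn))
  refine ⟨φ, ?_⟩
  have : φ.comp (io N) = dg := by
    ext1 x
    cases x with
    | none =>
      show φ (io N (FreeGroup.of none)) = _
      unfold io
      rw [FreeGroup.lift_apply_of]
      show φ (A N) = _
      rw [h1 N le_rfl]
      ext1 p
      simp [mlt, dg]
    | some i =>
      show φ (io N (FreeGroup.of (some i))) = _
      unfold io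
      rw [FreeGroup.lift_apply_of]
      show φ (B i) = _
      rw [h2 i, dif_pos i.2]
  intro w
  exact DFunLike.congr_fun this w

theorem io_inj (N : ℕ) : Function.Injective (io N) := by
  obtain ⟨φ, hφ⟩ := exists_phi N
  intro x y h
  have := congrArg φ h
  rw [hφ, hφ] at this
  exact dg_inj this

theorem A_mem (N : ℕ) : A N ∈ (io N).range := ⟨FreeGroup.of none, by simp [io]⟩

theorem B_mem (N i : ℕ) (h : i < N) : B i ∈ (io N).range :=
  ⟨FreeGroup.of (some ⟨i, h⟩), by simp [io]⟩

theorem io_mono (N : ℕ) : (io N).range ≤ (io (N + 1)).range := by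
  rintro _ ⟨w, rfl⟩
  induction w using FreeGroup.induction_on with
  | C1 => rw [map_one]; exact one_mem _
  | of x =>
    cases x with
    | none =>
      have : io N (FreeGroup.of none) = A N := by simp [io]
      rw [this, ← relA N]
      have ha := A_mem (N + 1)
      have hb := B_mem (N + 1) N (by omega)
      exact mul_mem (mul_mem (mul_mem ha hb) (inv_mem ha)) (inv_mem hb)
    | some i =>
      have : io N (FreeGroup.of (some i)) = B i := by simp [io]
      rw [this]
      exact B_mem _ _ (by omega)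
  | inv_of x h => rw [map_inv]; exact inv_mem h
  | mul x y hx hy => rw [map_mul]; exact mul_mem hx hy

theorem io_mono' : Monotone (fun N => (io N).range) := monotone_nat_of_le_succ io_mono

theorem exists_io (g : Kur) : ∃ N, g ∈ (io N).range := by
  refine Kur.induction (P := fun g => ∃ N, g ∈ (io N).range) ?_ ?_ ?_ ?_ ?_ g
  · exact ⟨0, one_mem _⟩
  · intro n; exact ⟨n, A_mem n⟩
  · intro n; exact ⟨n + 1, B_mem _ _ (by omega)⟩
  · rintro x y ⟨n, hn⟩ ⟨m, hm⟩
    exact ⟨max n m, mul_mem (io_mono' (le_max_left n m) hn) (io_mono' (le_max_right n m) hm)⟩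
  · rintro x ⟨n, hn⟩
    exact ⟨n, inv_mem hn⟩

theorem free_tf {α : Type} (w : FreeGroup α) (hw : w ≠ 1) (n : ℕ) (hn : 0 < n) : w ^ n ≠ 1 := by
  intro h
  exact not_isOfFinOrder_of_isMulTorsionFree hw (isOfFinOrder_iff_pow_eq_one.2 ⟨n, hn, h⟩)

theorem kur_tf (g : Kur) (hg : g ≠ 1) (n : ℕ) (hn : 0 < n) : g ^ n ≠ 1 := by
  obtain ⟨N, w, rfl⟩ := exists_io g
  rw [← map_pow]
  intro h
  have h2 : w ^ n = 1 := io_inj N (by rw [h, map_one])
  apply hg
  have : w = 1 := by
    by_contra hne
    exact free_tf w hne n hn h2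
  rw [this, map_one]

instance kur_countable : Countable Kur := by
  have : Countable (FreeGroup Gen) := inferInstance
  exact (PresentedGroup.mk_surjective (Set.range rel)).countable

/-- the two generators `a_(n+1), b_(n+1)` generate a free group -/
theorem pair_inj (n : ℕ) (f : FreeGroup Bool →* Kur) (h0 : f (FreeGroup.of false) = A (n + 1))
    (h1 : f (FreeGroup.of true) = B n) : Function.Injective f := by
  let e : Bool → Option (Fin (n + 1)) := fun x => match x with
    | false => none
    | true => some (Fin.last n)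
  have he : Function.Injective e := by
    intro x y h
    cases x <;> cases y <;> simp_all [e]
  have hf : f = (io (n + 1)).comp (FreeGroup.map e) := by
    ext x
    cases x with
    | false =>
      rw [h0]
      simp [io, e]
    | true =>
      rw [h1]
      simp [io, e]
  rw [hf]
  exact (io_inj (n + 1)).comp (FreeGroup.map_injective he)

end Pool.Agent.X260.KG
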