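import Mathlib

set_option autoImplicit false
set_option linter.unusedSectionVars false

namespace Pool.Agent.X260.KG

open Monoid Monoid.CoprodI

variable {ι : Type} {M : ι → Type} [∀ i, Group (M i)]

/-- `g` is the product of a reduced word from `i` to `j`. -/
def Ed (i j : ι) (g : CoprodI M) : Prop := ∃ w : NeWord M i j, w.prod = g

open Classical in
/-- index of the first syllable -/
noncomputable def st (g : CoprodI M) : Option ι := (Word.equiv g).fstIdx

open Classical in
/-- number of syllables -/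
noncomputable def len (g : CoprodI M) : ℕ := (Word.equiv g).toList.length

theorem st_prod {i j : ι} (w : NeWord M i j) : st w.prod = some i := by
  classical
  have h : Word.equiv w.prod = w.toWord := by
    rw [NeWord.prod]; exact Word.equiv.apply_symm_apply _
  unfold st
  have h2 : (Word.equiv w.prod).fstIdx = w.toWord.fstIdx := by rw [h]
  rw [Word.fstIdx]
  have h3 : (Word.equiv w.prod).toList = w.toList := by rw [h]; rfl
  rw [show (some i : Option ι) = Option.map Sigma.fst w.toList.head? by rw [w.toList_head?]; rfl]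
  congr 1
  convert congrArg List.head? h3

theorem len_prod {i j : ι} (w : NeWord M i j) : len w.prod = w.toList.length := by
  classical
  have h : Word.equiv w.prod = w.toWord := by
    rw [NeWord.prod]; exact Word.equiv.apply_symm_apply _
  have h3 : (Word.equiv w.prod).toList = w.toList := by rw [h]; rfl
  unfold len
  convert congrArg List.length h3

theorem st_one : st (1 : CoprodI M) = none := by
  classical
  unfold st
  have h : Word.equiv (1 : CoprodI M) = Word.empty := by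
    have := Word.equiv.apply_symm_apply (Word.empty : Word M)
    rw [← this]; congr 1
  have h2 : (Word.equiv (1 : CoprodI M)).fstIdx = none := by rw [h]; rfl
  convert h2

theorem exists_ed {g : CoprodI M} (hg : g ≠ 1) : ∃ i j, Ed i j g := by
  classical
  have hw : (Word.equiv g : Word M) ≠ Word.empty := by
    intro h
    apply hg
    have := Word.equiv.symm_apply_apply g
    rw [h] at this
    rw [← this]; rfl
  obtain ⟨i, j, w, hw⟩ := NeWord.of_word _ hw
  refine ⟨i, j, w, ?_⟩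
  rw [NeWord.prod, hw]
  exact Word.equiv.symm_apply_apply g

theorem Ed.st {i j : ι} {g : CoprodI M} (h : Ed i j g) : KG.st g = some i := by
  obtain ⟨w, rfl⟩ := h; exact st_prod w

theorem Ed.ne {i j : ι} {g : CoprodI M} (h : Ed i j g) : g ≠ 1 := by
  rintro rfl
  have := h.st
  rw [st_one] at this
  cases this

theorem Ed.inv {i j : ι} {g : CoprodI M} (h : Ed i j g) : Ed j i g⁻¹ := by
  obtain ⟨w, rfl⟩ := h
  exact ⟨w.inv, NeWord.inv_prod w⟩

theorem Ed.mul {i j k l : ι} {g h : CoprodI M} (hg : Ed i j g) (hh : Ed k l h) (hjk : j ≠ k) :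
    Ed i l (g * h) := by
  obtain ⟨w, rfl⟩ := hg
  obtain ⟨v, rfl⟩ := hh
  exact ⟨NeWord.append w hjk v, NeWord.append_prod⟩

theorem len_mul {i j k l : ι} {g h : CoprodI M} (hg : Ed i j g) (hh : Ed k l h) (hjk : j ≠ k) :
    len (g * h) = len g + len h := by
  obtain ⟨w, rfl⟩ := hg
  obtain ⟨v, rfl⟩ := hh
  rw [← NeWord.append_prod (hne := hjk), len_prod, len_prod, len_prod]
  simp [NeWord.toList]

theorem ed_of {i : ι} {m : M i} (hm : m ≠ 1) : Ed i i (of m) :=
  ⟨NeWord.singleton m hm, NeWord.prod_singleton m hm⟩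

theorem len_of {i : ι} {m : M i} (hm : m ≠ 1) : len (of m : CoprodI M) = 1 := by
  rw [← NeWord.prod_singleton m hm, len_prod]
  rfl

theorem Ed.uniq {i j k l : ι} {g : CoprodI M} (h : Ed i j g) (h' : Ed k l g) : i = k ∧ j = l := by
  constructor
  · have := h.st; rw [h'.st] at this; simpa using this.symm
  · have := h.inv.st; rw [h'.inv.st] at this; simpa using this.symm

theorem len_pos {i j : ι} {g : CoprodI M} (h : Ed i j g) : 1 ≤ len g := by
  obtain ⟨w, rfl⟩ := h
  rw [len_prod]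
  have := w.toList_ne_nil
  exact List.length_pos_iff.2 this

/-- splitting off the first letter -/
theorem Ed.fst {i j : ι} {g : CoprodI M} (h : Ed i j g) :
    ∃ m : M i, m ≠ 1 ∧ ∃ g', g = of m * g' ∧ ((g' = 1 ∧ i = j) ∨ ∃ k, k ≠ i ∧ Ed k j g') := by
  classical
  obtain ⟨w, hw⟩ : ∃ w : Word M, w.prod = g := ⟨Word.equiv g, Word.equiv.symm_apply_apply g⟩
  revert hw h
  induction w using Word.consRecOn with
  | empty =>
    intro h hw
    rw [Word.prod_empty] at hw
    exact absurd hw.symm h.ne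
  | cons a m w h1 h2 ih =>
    intro h hw
    rw [Word.prod_cons] at hw
    by_cases hp : w.prod = 1
    · have h3 : Ed a a g := by rw [← hw, hp, mul_one]; exact ed_of h2
      obtain ⟨rfl, rfl⟩ := h.uniq h3
      exact ⟨m, h2, w.prod, hw.symm, Or.inl ⟨hp, rfl⟩⟩
    · obtain ⟨k, l, hkl⟩ := exists_ed hp
      have hka : k ≠ a := by
        rintro rfl
        apply h1
        have h4 := hkl.st
        unfold KG.st at h4
        have h5 : (Word.equiv w.prod : Word M) = w := Word.equiv.apply_symm_apply w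
        have h6 : (Word.equiv w.prod : Word M).fstIdx = w.fstIdx := by rw [h5]
        rw [← h6, ← h4]
      have h3 : Ed a l g := by rw [← hw]; exact (ed_of h2).mul hkl hka.symm
      obtain ⟨rfl, rfl⟩ := h.uniq h3
      exact ⟨m, h2, w.prod, hw.symm, Or.inr ⟨k, hka, hkl⟩⟩

/-- splitting off the last letter -/
theorem Ed.lst {i j : ι} {g : CoprodI M} (h : Ed i j g) :
    ∃ m : M j, m ≠ 1 ∧ ∃ g', g = g' * of m ∧ ((g' = 1 ∧ i = j) ∨ ∃ k, k ≠ j ∧ Ed i k g') := by
  obtain ⟨m, hm, g', hg, h2⟩ := h.inv.fst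
  refine ⟨m⁻¹, inv_ne_one.2 hm, g'⁻¹, ?_, ?_⟩
  · rw [map_inv, ← mul_inv_rev, ← hg, inv_inv]
  · rcases h2 with ⟨h3, h4⟩ | ⟨k, hk, h3⟩
    · exact Or.inl ⟨by rw [h3, inv_one], h4.symm⟩
    · exact Or.inr ⟨k, hk, h3.inv⟩

/-- elements starting with `i` -/
def SS (i : ι) : Set (CoprodI M) := {g | ∃ j, Ed i j g}

theorem not_mem_SS {i : ι} {g : CoprodI M} (h : g ∉ SS i) : g = 1 ∨ ∃ k l, k ≠ i ∧ Ed k l g := by
  by_cases hg : g = 1
  · exact Or.inl hg
  · obtain ⟨k, l, hkl⟩ := exists_ed hg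
    refine Or.inr ⟨k, l, ?_, hkl⟩
    rintro rfl
    exact h ⟨l, hkl⟩

theorem one_not_SS {i : ι} : (1 : CoprodI M) ∉ SS (M := M) i := by
  rintro ⟨j, hj⟩; exact hj.ne rfl

theorem Ed.SS {i j : ι} {g : CoprodI M} (h : Ed i j g) : g ∈ KG.SS (M := M) i := ⟨j, h⟩

theorem Ed.not_SS {i j k : ι} {g : CoprodI M} (h : Ed i j g) (hik : i ≠ k) :
    g ∉ KG.SS (M := M) k := by
  rintro ⟨l, hl⟩
  exact hik (h.uniq hl).1

/-- multiplying on the right by something not cancelling -/
theorem Ed.mul_SS {i j : ι} {g h : CoprodI M} (hg : Ed i j g) (hh : h ∉ KG.SS (M := M) j) :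
    g * h ∈ KG.SS (M := M) i := by
  rcases not_mem_SS hh with rfl | ⟨k, l, hk, hkl⟩
  · rw [mul_one]; exact hg.SS
  · exact (hg.mul hkl hk.symm).SS

/-- almost invariance for one letter -/
theorem fin_of (i j : ι) (m : M j) :
    {s : CoprodI M | ¬ (s ∈ SS i ↔ s * of m ∈ SS i)} ⊆ {1, (of m)⁻¹} := by
  intro s hs
  by_contra hne
  simp only [Set.mem_insert_iff, Set.mem_singleton_iff, not_or] at hne
  obtain ⟨h1, h2⟩ := hne
  apply hs
  by_cases hm : m = 1
  · rw [hm, map_one, mul_one]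
  obtain ⟨k, l, hkl⟩ := exists_ed h1
  have hkl' : ∀ t : CoprodI M, (∃ l', Ed k l' t) → (s ∈ SS i ↔ t ∈ SS i) := by
    rintro t ⟨l', ht⟩
    constructor
    · rintro ⟨a, ha⟩
      rw [← (hkl.uniq ha).1]; exact ht.SS
    · rintro ⟨a, ha⟩
      rw [← (ht.uniq ha).1]; exact hkl.SS
  apply hkl'
  by_cases hlj : l = j
  · subst hlj
    obtain ⟨m', hm', s', hs', h3⟩ := hkl.lst
    have h4 : s * of m = s' * of (m' * m) := by rw [hs', map_mul, mul_assoc]
    by_cases hmm : m' * m = 1
    · rcases h3 with ⟨h3, _⟩ | ⟨k', hk', h3⟩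
      · exfalso
        apply h2
        rw [hs', h3, one_mul, ← map_inv, eq_inv_of_mul_eq_one_left hmm]
      · rw [h4, hmm, map_one, mul_one]
        exact ⟨k', h3⟩
    · rcases h3 with ⟨h3, h5⟩ | ⟨k', hk', h3⟩
      · rw [h4, h3, one_mul]
        subst h5
        exact ⟨k, ed_of hmm⟩
      · rw [h4]
        exact ⟨l, h3.mul (ed_of hmm) hk'⟩
  · exact ⟨j, hkl.mul (ed_of hm) hlj⟩

theorem fin_all (i : ι) (g : CoprodI M) : {s : CoprodI M | ¬ (s ∈ SS i ↔ s * g ∈ SS i)}.Finite := by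
  induction g using CoprodI.induction_on with
  | one => simp
  | of j m => exact (Set.toFinite _).subset (fin_of i j m)
  | mul x y hx hy =>
    have hinj : Function.Injective (fun s : CoprodI M => s * x) := mul_left_injective x
    refine (hx.union (hy.preimage hinj.injOn)).subset ?_
    intro s hs
    simp only [Set.mem_setOf_eq, Set.mem_union, Set.mem_preimage, ← mul_assoc] at *
    tauto

/-- translates are nested -/
theorem nested_SS (i : ι) (t : CoprodI M) :
    (∀ x, t⁻¹ * x ∈ SS i → x ∈ SS i) ∨ (∀ x, x ∈ SS i → t⁻¹ * x ∈ SS i) ∨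
    (∀ x, t⁻¹ * x ∈ SS i → x ∉ SS i) ∨ (∀ x, t⁻¹ * x ∉ SS i → x ∈ SS i) := by
  by_cases ht : t = 1
  · left; intro x; rw [ht, inv_one, one_mul]; exact id
  obtain ⟨k, l, hkl⟩ := exists_ed ht
  by_cases hl : l = i
  · subst hl
    by_cases hk : k = l
    · subst hk
      right; right; right
      intro x hx
      have := hkl.mul_SS hx
      rwa [mul_inv_cancel_left] at this
    · right; left
      intro x hx
      by_contra hx'
      obtain ⟨b, hb⟩ := hkl.mul_SS hx'
      rw [mul_inv_cancel_left] at hb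
      exact hb.not_SS hk hx
  · have key : ∀ x, t⁻¹ * x ∈ SS i → x ∈ SS k := by
      rintro x ⟨b, hb⟩
      have := hkl.mul hb hl
      rw [mul_inv_cancel_left] at this
      exact this.SS
    by_cases hk : k = i
    · subst hk
      left; exact key
    · right; right; left
      intro x hx hx'
      obtain ⟨b, hb⟩ := key x hx
      exact hb.not_SS hk hx'

/-- conjugating an element into cyclically reduced form -/
theorem cyc (n : ℕ) : ∀ g : CoprodI M, len g ≤ n → g ≠ 1 → ∃ t : CoprodI M,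
    (∃ i, ∃ m : M i, m ≠ 1 ∧ t⁻¹ * g * t = of m) ∨ ∃ i j, i ≠ j ∧ Ed i j (t⁻¹ * g * t) := by
  induction n with
  | zero =>
    intro g hg h1
    obtain ⟨i, j, h⟩ := exists_ed h1
    have := len_pos h
    omega
  | succ n ih =>
    intro g hg h1
    obtain ⟨i, j, h⟩ := exists_ed h1
    by_cases hij : i = j
    swap
    · exact ⟨1, Or.inr ⟨i, j, hij, by simpa using h⟩⟩
    subst hij
    obtain ⟨m, hm, g', hg', h2⟩ := h.fst
    rcases h2 with ⟨h2, _⟩ | ⟨k, hk, h2⟩
    · exact ⟨1, Or.inl ⟨i, m, hm, by rw [hg', h2]; simp⟩⟩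
    have hlen : len g = 1 + len g' := by rw [hg', len_mul (ed_of hm) h2 hk.symm, len_of hm]
    obtain ⟨m', hm', g'', hg'', h3⟩ := h2.lst
    rcases h3 with ⟨_, h3⟩ | ⟨l, hl, h3⟩
    · exact absurd h3 hk
    have hlen' : len g' = len g'' + 1 := by rw [hg'', len_mul h3 (ed_of hm') hl, len_of hm']
    have hc : (of m)⁻¹ * g * of m = g'' * of (m' * m) := by
      rw [hg', hg'', map_mul]; group
    have hl2 : len (g'' * of (m' * m)) ≤ n := by
      by_cases hmm : m' * m = 1
      · rw [hmm, map_one, mul_one]; omega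
      · rw [len_mul h3 (ed_of hmm) hl, len_of hmm]; omega
    have hne : g'' * of (m' * m) ≠ 1 := by
      rw [← hc]
      intro h
      apply h1
      have : g = of m * ((of m)⁻¹ * g * of m) * (of m)⁻¹ := by group
      rw [this, h]; group
    obtain ⟨t, ht⟩ := ih _ hl2 hne
    refine ⟨of m * t, ?_⟩
    have he : (of m * t)⁻¹ * g * (of m * t) = t⁻¹ * (g'' * of (m' * m)) * t := by
      rw [← hc]; group
    rw [he]; exact ht

/-- a nontrivial subgroup lies in a conjugate of a factor or contains a hyperbolic element -/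
theorem ell_or_hyp {H : Type} [Group H] (f : H →* CoprodI M) (hf : Function.Injective f)
    (hH : ∃ h : H, h ≠ 1) :
    (∃ i, ∃ t : CoprodI M, ∀ h, t⁻¹ * f h * t ∈ (of : M i →* CoprodI M).range) ∨
    ∃ t : CoprodI M, ∃ h : H, ∃ i j, i ≠ j ∧ Ed i j (t⁻¹ * f h * t) := by
  by_contra hcon
  rw [not_or] at hcon
  obtain ⟨hc1, hc2⟩ := hcon
  obtain ⟨h, hh⟩ := hH
  have hfh : f h ≠ 1 := fun e => hh (hf (by rw [e, map_one]))
  obtain ⟨t, ⟨i, m, hm, ht⟩ | ⟨i, j, hij, ht⟩⟩ := cyc _ (f h) le_rfl hfh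
  swap
  · exact hc2 ⟨t, h, i, j, hij, ht⟩
  apply hc1
  refine ⟨i, t, fun g => ?_⟩
  by_contra hg
  have hγ : ∃ u v : M i, ∃ γ j k, j ≠ i ∧ k ≠ i ∧ Ed j k γ ∧ t⁻¹ * f g * t = of u * γ * of v := by
    have hne : t⁻¹ * f g * t ≠ 1 := by
      intro e; apply hg; rw [e]; exact one_mem _
    have step1 : ∃ u : M i, ∃ γ j k, j ≠ i ∧ Ed j k γ ∧ t⁻¹ * f g * t = of u * γ := by
      obtain ⟨a, b, hab⟩ := exists_ed hne
      by_cases hai : a = i
      · subst hai
        obtain ⟨u, _, γ, hγ, h3⟩ := hab.fst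
        rcases h3 with ⟨h3, _⟩ | ⟨k, hk, h3⟩
        · exfalso; apply hg; rw [hγ, h3, mul_one]; exact ⟨u, rfl⟩
        · exact ⟨u, γ, k, b, hk, h3, hγ⟩
      · exact ⟨1, _, a, b, hai, hab, by rw [map_one, one_mul]⟩
    obtain ⟨u, γ, j, k, hj, hγ, he⟩ := step1
    by_cases hki : k = i
    · subst hki
      obtain ⟨v, _, δ, hδ, h3⟩ := hγ.lst
      rcases h3 with ⟨_, h3⟩ | ⟨k', hk', h3⟩
      · exact absurd h3 hj
      · exact ⟨u, v, δ, j, k', hj, hk', h3, by rw [he, hδ, mul_assoc]⟩
    · exact ⟨u, 1, γ, j, k, hj, hki, hγ, by rw [he, map_one, mul_one]⟩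
  obtain ⟨u, v, γ, j, k, hj, hk, hγ, he⟩ := hγ
  apply hc2
  by_cases hw : v * u = 1
  · refine ⟨t * of u, g * h, j, i, hj, ?_⟩
    have e1 : (t * of u)⁻¹ * f (g * h) * (t * of u) = γ * of (u⁻¹ * m * u) := by
      have : (t * of u)⁻¹ * f (g * h) * (t * of u) =
          (of u)⁻¹ * (t⁻¹ * f g * t) * (t⁻¹ * f h * t) * of u := by
        rw [map_mul]; group
      rw [this, he, ht]
      have hv : v = u⁻¹ := eq_inv_of_mul_eq_one_left hw
      rw [hv]
      simp only [map_mul, map_inv]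
      group
    rw [e1]
    refine hγ.mul (ed_of ?_) hk
    intro e
    apply hm
    have : m = u * (u⁻¹ * m * u) * u⁻¹ := by group
    rw [this, e]; group
  · refine ⟨t * of u, g, j, i, hj, ?_⟩
    have e1 : (t * of u)⁻¹ * f g * (t * of u) = γ * of (v * u) := by
      have : (t * of u)⁻¹ * f g * (t * of u) = (of u)⁻¹ * (t⁻¹ * f g * t) * of u := by group
      rw [this, he]
      simp only [map_mul]
      group
    rw [e1]
    exact hγ.mul (ed_of hw) hk

end Pool.Agent.X260.KG
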